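import Mathlib

/-!
# MP_308823_co, Q2: the rational Ehrhart numerator of an odd cyclic block polytope need not be
γ-nonnegative

For `m = 3`, `a = 1` one has `h = 1 + 4z + 7z² + 7z³ + 4z⁴ + z⁵`, so `γ₁ = -1`.
-/

set_option autoImplicit false
open scoped Pointwise

namespace Pool.Agent.Results.MP_308823_co.NotGammaNonneg

/-- The cyclic block polytope `C_m^{(a)} ⊆ ℝ^{am}`: all coordinates are nonnegative and
`R_i + R_{i+1} ≤ 1` for all `i` modulo `m`, where `R_i = ∑_j x_{i,j}`. -/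
def cyclicBlock (m a : ℕ) [NeZero m] : Set (Fin m → Fin a → ℝ) :=
  {x | (∀ i j, 0 ≤ x i j) ∧ ∀ i : Fin m, (∑ j, x i j) + (∑ j, x (i + 1) j) ≤ 1}

/-- `L(q)`: the number of integer points of `q C_m^{(a)}`. -/
noncomputable def L (m a : ℕ) [NeZero m] (q : ℕ) : ℕ :=
  Set.ncard {z : Fin m → Fin a → ℤ | (fun i j => ((z i j : ℤ) : ℝ)) ∈ (q : ℝ) • cyclicBlock m a}

/-- `h` is the rational Ehrhart numerator: `∑_q L(q) z^q = h(z) / (1 - z²)^{am+1}`. -/
def IsNumerator (m a : ℕ) [NeZero m] (h : Polynomial ℤ) : Prop :=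
  PowerSeries.mk (fun q : ℕ => (L m a q : ℤ)) *
    (1 - (PowerSeries.X : PowerSeries ℤ) ^ 2) ^ (a * m + 1) = (h : PowerSeries ℤ)

/-- `h`, of degree `N`, equals `∑_j γ_j z^j (1+z)^{N-2j}` with all `γ_j ≥ 0` (the sum runs over the
`j` with `2j ≤ N`). -/
def GammaNonneg (h : Polynomial ℤ) : Prop :=
  ∃ γ : ℕ → ℤ, (∀ j, 0 ≤ γ j) ∧
    h = ∑ j ∈ Finset.range (h.natDegree / 2 + 1),
      Polynomial.C (γ j) * Polynomial.X ^ j * (1 + Polynomial.X) ^ (h.natDegree - 2 * j)

/-! ## Lattice points of `q C_3^{(1)}` -/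

/-- triples of naturals with pairwise sums at most `q` -/
def F (q : ℕ) : Finset (ℕ × ℕ × ℕ) :=
  ((Finset.range (q + 1)) ×ˢ (Finset.range (q + 1)) ×ˢ (Finset.range (q + 1))).filter
    (fun p => p.1 + p.2.1 ≤ q ∧ p.2.1 + p.2.2 ≤ q ∧ p.2.2 + p.1 ≤ q)

theorem mem_F (q : ℕ) (p : ℕ × ℕ × ℕ) :
    p ∈ F q ↔ p.1 + p.2.1 ≤ q ∧ p.2.1 + p.2.2 ≤ q ∧ p.2.2 + p.1 ≤ q := by
  unfold F
  rw [Finset.mem_filter, Finset.mem_product, Finset.mem_product, Finset.mem_range,
    Finset.mem_range, Finset.mem_range]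
  constructor
  · rintro ⟨_, h⟩; exact h
  · intro h
    refine ⟨⟨?_, ?_, ?_⟩, h⟩ <;> omega

/-- the vector attached to a triple -/
def toVec (p : ℕ × ℕ × ℕ) : Fin 3 → Fin 1 → ℤ := fun i _ => ![(p.1 : ℤ), (p.2.1 : ℤ), (p.2.2 : ℤ)] i

theorem toVec_injective : Function.Injective toVec := by
  intro p q h
  have h0 := congrFun (congrFun h 0) 0
  have h1 := congrFun (congrFun h 1) 0
  have h2 := congrFun (congrFun h 2) 0
  simp only [toVec, Matrix.cons_val_zero, Matrix.cons_val_one, Matrix.cons_val] at h0 h1 h2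
  have e0 : p.1 = q.1 := by exact_mod_cast h0
  have e1 : p.2.1 = q.2.1 := by exact_mod_cast h1
  have e2 : p.2.2 = q.2.2 := by exact_mod_cast h2
  exact Prod.ext e0 (Prod.ext e1 e2)

theorem mem_smul_cyclicBlock (q : ℕ) (x : Fin 3 → Fin 1 → ℝ) :
    x ∈ (q : ℝ) • cyclicBlock 3 1 ↔
      (∀ i j, 0 ≤ x i j) ∧ ∀ i : Fin 3, x i 0 + x (i + 1) 0 ≤ q := by
  rcases Nat.eq_zero_or_pos q with hq | hq
  · subst hq
    have hne : (cyclicBlock 3 1).Nonempty := ⟨0, by
      refine ⟨fun i j => le_rfl, fun i => ?_⟩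
      simp⟩
    rw [Nat.cast_zero, Set.zero_smul_set hne]
    simp only [Set.mem_zero]
    constructor
    · rintro rfl
      refine ⟨fun i j => le_rfl, fun i => ?_⟩
      simp
    · rintro ⟨h1, h2⟩
      funext i j
      obtain rfl : j = 0 := Subsingleton.elim _ _
      have := h2 i
      have a1 := h1 i 0
      have a2 := h1 (i + 1) 0
      simp only [Pi.zero_apply]
      linarith
  · have hq' : (0 : ℝ) < q := by exact_mod_cast hq
    rw [Set.mem_smul_set_iff_inv_smul_mem₀ (ne_of_gt hq')]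
    unfold cyclicBlock
    simp only [Set.mem_ofPred_eq, Pi.smul_apply, smul_eq_mul, Finset.univ_unique,
      Finset.sum_singleton, Fin.default_eq_zero]
    constructor
    · rintro ⟨h1, h2⟩
      refine ⟨fun i j => ?_, fun i => ?_⟩
      · have := h1 i j
        exact (mul_nonneg_iff_of_pos_left (inv_pos.mpr hq')).mp this
      · have := h2 i
        rw [← mul_add, inv_mul_le_iff₀ hq'] at this
        linarith
    · rintro ⟨h1, h2⟩
      refine ⟨fun i j => mul_nonneg (inv_nonneg.mpr hq'.le) (h1 i j), fun i => ?_⟩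
      rw [← mul_add, inv_mul_le_iff₀ hq']
      linarith [h2 i]

theorem L_eq (q : ℕ) : L 3 1 q = (F q).card := by
  unfold L
  have : {z : Fin 3 → Fin 1 → ℤ | (fun i j => ((z i j : ℤ) : ℝ)) ∈ (q : ℝ) • cyclicBlock 3 1} =
      toVec '' (F q : Set (ℕ × ℕ × ℕ)) := by
    ext z
    rw [Set.mem_ofPred_eq, mem_smul_cyclicBlock]
    constructor
    · rintro ⟨h1, h2⟩
      have g1 : ∀ i, 0 ≤ z i 0 := fun i => by exact_mod_cast h1 i 0
      have g2 : ∀ i : Fin 3, z i 0 + z (i + 1) 0 ≤ q := fun i => by exact_mod_cast h2 i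
      refine ⟨((z 0 0).toNat, (z 1 0).toNat, (z 2 0).toNat), ?_, ?_⟩
      · rw [Finset.mem_coe, mem_F]
        have a0 := g1 0
        have a1 := g1 1
        have a2 := g1 2
        have b0 : z 0 0 + z 1 0 ≤ q := g2 0
        have b1 : z 1 0 + z 2 0 ≤ q := g2 1
        have b2 : z 2 0 + z 0 0 ≤ q := g2 2
        refine ⟨?_, ?_, ?_⟩ <;> simp only <;> omega
      · funext i j
        obtain rfl : j = 0 := Subsingleton.elim _ _
        have a0 := g1 0
        have a1 := g1 1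
        have a2 := g1 2
        fin_cases i
        · simp [toVec, Int.toNat_of_nonneg a0]
        · simp [toVec, Int.toNat_of_nonneg a1]
        · simp [toVec, Int.toNat_of_nonneg a2]
    · rintro ⟨p, hp, rfl⟩
      rw [Finset.mem_coe, mem_F] at hp
      obtain ⟨h1, h2, h3⟩ := hp
      refine ⟨fun i j => ?_, fun i => ?_⟩
      · fin_cases i <;> simp [toVec]
      · fin_cases i
        · show ((p.1 : ℤ) : ℝ) + ((p.2.1 : ℤ) : ℝ) ≤ (q : ℝ)
          exact_mod_cast h1
        · show ((p.2.1 : ℤ) : ℝ) + ((p.2.2 : ℤ) : ℝ) ≤ (q : ℝ)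
          exact_mod_cast h2
        · show ((p.2.2 : ℤ) : ℝ) + ((p.1 : ℤ) : ℝ) ≤ (q : ℝ)
          exact_mod_cast h3
  rw [this, Set.ncard_image_of_injective _ toVec_injective, Set.ncard_coe_finset]

/-- pairs with sum at most `q` -/
theorem card_pairs (q : ℕ) :
    2 * (((Finset.range (q + 1)) ×ˢ (Finset.range (q + 1))).filter
      (fun p : ℕ × ℕ => p.1 + p.2 ≤ q)).card = (q + 1) * (q + 2) := by
  have : (((Finset.range (q + 1)) ×ˢ (Finset.range (q + 1))).filter
      (fun p : ℕ × ℕ => p.1 + p.2 ≤ q)).card =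
      ((Finset.range (q + 1)).sigma (fun i => Finset.range (i + 1))).card := by
    apply Finset.card_nbij' (fun p => (⟨p.1 + p.2, p.1⟩ : Σ _ : ℕ, ℕ))
      (fun s => (s.2, s.1 - s.2))
    · rintro ⟨x, y⟩ hp
      simp only [Finset.coe_filter, Finset.mem_product, Finset.mem_range, Set.mem_ofPred_eq] at hp
      simp only [Finset.coe_sigma, Finset.coe_range, Set.mem_sigma_iff, Set.mem_Iio]
      omega
    · rintro ⟨i, j⟩ hs
      simp only [Finset.coe_sigma, Finset.coe_range, Set.mem_sigma_iff, Set.mem_Iio] at hs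
      simp only [Finset.coe_filter, Finset.mem_product, Finset.mem_range, Set.mem_ofPred_eq]
      omega
    · rintro ⟨x, y⟩ hp
      simp
    · rintro ⟨i, j⟩ hs
      simp only [Finset.coe_sigma, Finset.coe_range, Set.mem_sigma_iff, Set.mem_Iio] at hs
      have : j + (i - j) = i := by omega
      simp [this]
  rw [this, Finset.card_sigma]
  simp only [Finset.card_range]
  have h2 := Finset.sum_range_id_mul_two (q + 2)
  rw [Finset.sum_range_succ'] at h2
  simp only [add_zero] at h2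
  have h3 : q + 2 - 1 = q + 1 := by omega
  rw [h3] at h2
  linarith

theorem card_F_boundary (q : ℕ) :
    2 * ((F q).filter (fun p => p.1 = 0 ∨ p.2.1 = 0 ∨ p.2.2 = 0)).card = 3 * q * (q + 1) + 2 := by
  set T := ((Finset.range (q + 1)) ×ˢ (Finset.range (q + 1))).filter
      (fun p : ℕ × ℕ => p.1 + p.2 ≤ q) with hT
  have hTm : ∀ p : ℕ × ℕ, p ∈ T ↔ p.1 + p.2 ≤ q := by
    intro p
    rw [hT, Finset.mem_filter, Finset.mem_product, Finset.mem_range, Finset.mem_range]
    constructor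
    · rintro ⟨_, h⟩; exact h
    · intro h; refine ⟨⟨?_, ?_⟩, h⟩ <;> omega
  have hTc := card_pairs q
  rw [← hT] at hTc
  set A := (F q).filter (fun p => p.1 = 0) with hA
  set B := (F q).filter (fun p => p.2.1 = 0) with hB
  set C := (F q).filter (fun p => p.2.2 = 0) with hC
  have hAc : A.card = T.card := by
    apply Finset.card_nbij' (fun p => (p.2.1, p.2.2)) (fun p => (0, p.1, p.2))
    · rintro ⟨x, y, z⟩ hp
      rw [Finset.mem_coe, hA, Finset.mem_filter, mem_F] at hp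
      rw [Finset.mem_coe, hTm]
      simp only at *; omega
    · rintro ⟨x, y⟩ hp
      rw [Finset.mem_coe, hTm] at hp
      rw [Finset.mem_coe, hA, Finset.mem_filter, mem_F]
      simp only at hp
      refine ⟨⟨?_, ?_, ?_⟩, rfl⟩ <;> simp only <;> omega
    · rintro ⟨x, y, z⟩ hp
      rw [Finset.mem_coe, hA, Finset.mem_filter] at hp
      have : x = 0 := hp.2
      simp [this]
    · rintro ⟨x, y⟩ hp; rfl
  have hBc : B.card = T.card := by
    apply Finset.card_nbij' (fun p => (p.1, p.2.2)) (fun p => (p.1, 0, p.2))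
    · rintro ⟨x, y, z⟩ hp
      rw [Finset.mem_coe, hB, Finset.mem_filter, mem_F] at hp
      rw [Finset.mem_coe, hTm]
      simp only at *; omega
    · rintro ⟨x, y⟩ hp
      rw [Finset.mem_coe, hTm] at hp
      rw [Finset.mem_coe, hB, Finset.mem_filter, mem_F]
      simp only at hp
      refine ⟨⟨?_, ?_, ?_⟩, rfl⟩ <;> simp only <;> omega
    · rintro ⟨x, y, z⟩ hp
      rw [Finset.mem_coe, hB, Finset.mem_filter] at hp
      have : y = 0 := hp.2
      simp [this]
    · rintro ⟨x, y⟩ hp; rfl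
  have hCc : C.card = T.card := by
    apply Finset.card_nbij' (fun p => (p.1, p.2.1)) (fun p => (p.1, p.2, 0))
    · rintro ⟨x, y, z⟩ hp
      rw [Finset.mem_coe, hC, Finset.mem_filter, mem_F] at hp
      rw [Finset.mem_coe, hTm]
      simp only at *; omega
    · rintro ⟨x, y⟩ hp
      rw [Finset.mem_coe, hTm] at hp
      rw [Finset.mem_coe, hC, Finset.mem_filter, mem_F]
      simp only at hp
      refine ⟨⟨?_, ?_, ?_⟩, rfl⟩ <;> simp only <;> omega
    · rintro ⟨x, y, z⟩ hp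
      rw [Finset.mem_coe, hC, Finset.mem_filter] at hp
      have : z = 0 := hp.2
      simp [this]
    · rintro ⟨x, y⟩ hp; rfl
  have hABc : (A ∩ B).card = q + 1 := by
    have : (A ∩ B).card = (Finset.range (q + 1)).card := by
      apply Finset.card_nbij' (fun p => p.2.2) (fun z => (0, 0, z))
      · rintro ⟨x, y, z⟩ hp
        rw [Finset.mem_coe, Finset.mem_inter, hA, hB, Finset.mem_filter, Finset.mem_filter,
          mem_F] at hp
        rw [Finset.mem_coe, Finset.mem_range]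
        simp only at *; omega
      · intro z hp
        rw [Finset.mem_coe, Finset.mem_range] at hp
        rw [Finset.mem_coe, Finset.mem_inter, hA, hB, Finset.mem_filter, Finset.mem_filter, mem_F]
        refine ⟨⟨⟨?_, ?_, ?_⟩, rfl⟩, ⟨?_, ?_, ?_⟩, rfl⟩ <;> simp only <;> omega
      · rintro ⟨x, y, z⟩ hp
        rw [Finset.mem_coe, Finset.mem_inter, hA, hB, Finset.mem_filter, Finset.mem_filter] at hp
        have h1 : x = 0 := hp.1.2
        have h2 : y = 0 := hp.2.2
        simp [h1, h2]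
      · intro z hp; rfl
    rw [this, Finset.card_range]
  have hABCc : ((A ∪ B) ∩ C).card = 2 * q + 1 := by
    have : ((A ∪ B) ∩ C).card = (Finset.range (2 * q + 1)).card := by
      apply Finset.card_nbij' (fun p => if p.1 = 0 then p.2.1 else q + p.1)
        (fun s => if s ≤ q then (0, s, 0) else (s - q, 0, 0))
      · rintro ⟨x, y, z⟩ hp
        rw [Finset.mem_coe, Finset.mem_inter, Finset.mem_union, hA, hB, hC, Finset.mem_filter,
          Finset.mem_filter, Finset.mem_filter, mem_F] at hp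
        rw [Finset.mem_coe, Finset.mem_range]
        simp only at *
        split_ifs <;> omega
      · intro s hs
        rw [Finset.mem_coe, Finset.mem_range] at hs
        rw [Finset.mem_coe, Finset.mem_inter, Finset.mem_union, hA, hB, hC, Finset.mem_filter,
          Finset.mem_filter, Finset.mem_filter, mem_F]
        simp only
        split_ifs with h
        · refine ⟨Or.inl ⟨⟨?_, ?_, ?_⟩, rfl⟩, ⟨?_, ?_, ?_⟩, rfl⟩ <;> simp only <;> omega
        · refine ⟨Or.inr ⟨⟨?_, ?_, ?_⟩, rfl⟩, ⟨?_, ?_, ?_⟩, rfl⟩ <;> simp only <;> omega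
      · rintro ⟨x, y, z⟩ hp
        rw [Finset.mem_coe, Finset.mem_inter, Finset.mem_union, hA, hB, hC, Finset.mem_filter,
          Finset.mem_filter, Finset.mem_filter, mem_F] at hp
        simp only at *
        by_cases hx : x = 0
        · have hy : y ≤ q := by omega
          simp only [hx, if_true, hy]
          refine Prod.ext rfl (Prod.ext rfl ?_)
          simp only; omega
        · have hq : ¬ (q + x ≤ q) := by omega
          simp only [hx, if_false, hq]
          refine Prod.ext ?_ (Prod.ext ?_ ?_) <;> simp only <;> omega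
      · intro s hs
        rw [Finset.mem_coe, Finset.mem_range] at hs
        simp only
        by_cases h : s ≤ q
        · simp [h]
        · have h' : ¬ (s - q = 0) := by omega
          simp only [h, if_false, h']
          omega
    rw [this, Finset.card_range]
  have hunion : (F q).filter (fun p => p.1 = 0 ∨ p.2.1 = 0 ∨ p.2.2 = 0) = (A ∪ B) ∪ C := by
    rw [hA, hB, hC]
    ext p
    simp only [Finset.mem_filter, Finset.mem_union]
    tauto
  have e1 := Finset.card_union_add_card_inter A B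
  have e2 := Finset.card_union_add_card_inter (A ∪ B) C
  rw [hunion]
  rw [hABc, hAc, hBc] at e1
  rw [hABCc, hCc] at e2
  nlinarith

theorem card_F_interior (q : ℕ) :
    ((F (q + 2)).filter (fun p => ¬ (p.1 = 0 ∨ p.2.1 = 0 ∨ p.2.2 = 0))).card = (F q).card := by
  apply Finset.card_nbij' (fun p => (p.1 - 1, p.2.1 - 1, p.2.2 - 1))
    (fun p => (p.1 + 1, p.2.1 + 1, p.2.2 + 1))
  · rintro ⟨x, y, z⟩ hp
    rw [Finset.mem_coe, Finset.mem_filter, mem_F] at hp
    rw [Finset.mem_coe, mem_F]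
    simp only at *; omega
  · rintro ⟨x, y, z⟩ hp
    rw [Finset.mem_coe, mem_F] at hp
    rw [Finset.mem_coe, Finset.mem_filter, mem_F]
    simp only at *; omega
  · rintro ⟨x, y, z⟩ hp
    rw [Finset.mem_coe, Finset.mem_filter] at hp
    have := hp.2
    simp only at this
    refine Prod.ext ?_ (Prod.ext ?_ ?_) <;> simp only <;> omega
  · rintro ⟨x, y, z⟩ hp
    simp

theorem L_rec (q : ℕ) : 2 * L 3 1 (q + 2) = 2 * L 3 1 q + 3 * (q + 2) * (q + 3) + 2 := by
  rw [L_eq, L_eq]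
  have h := Finset.card_filter_add_card_filter_not (s := F (q + 2))
    (fun p : ℕ × ℕ × ℕ => p.1 = 0 ∨ p.2.1 = 0 ∨ p.2.2 = 0)
  rw [card_F_interior] at h
  have h2 := card_F_boundary (q + 2)
  nlinarith

theorem L_zero : L 3 1 0 = 1 := by
  rw [L_eq]; decide

theorem L_one : L 3 1 1 = 4 := by
  rw [L_eq]; decide

theorem L_formula (k : ℕ) :
    2 * (L 3 1 (2 * k) : ℤ) = 4 * k ^ 3 + 9 * k ^ 2 + 7 * k + 2 ∧
    2 * (L 3 1 (2 * k + 1) : ℤ) = 4 * k ^ 3 + 15 * k ^ 2 + 19 * k + 8 := by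
  induction k with
  | zero =>
    refine ⟨?_, ?_⟩
    · simp [L_zero]
    · simp [L_one]
  | succ k ih =>
    obtain ⟨h1, h2⟩ := ih
    have r1 := L_rec (2 * k)
    have r2 := L_rec (2 * k + 1)
    have e1 : 2 * (k + 1) = 2 * k + 2 := by ring
    have e2 : 2 * (k + 1) + 1 = 2 * k + 1 + 2 := by ring
    rw [e2, e1]
    have r1' : 2 * (L 3 1 (2 * k + 2) : ℤ) =
        2 * (L 3 1 (2 * k) : ℤ) + 3 * (2 * k + 2) * (2 * k + 3) + 2 := by exact_mod_cast r1
    have r2' : 2 * (L 3 1 (2 * k + 1 + 2) : ℤ) =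
        2 * (L 3 1 (2 * k + 1) : ℤ) + 3 * (2 * k + 1 + 2) * (2 * k + 1 + 3) + 2 := by
      exact_mod_cast r2
    rw [r1', r2', h1, h2]
    push_cast
    refine ⟨?_, ?_⟩ <;> ring


/-! ## The numerator -/

/-- `1 + 4z + 7z² + 7z³ + 4z⁴ + z⁵` -/
noncomputable def h31 : Polynomial ℤ :=
  Polynomial.C 1 + Polynomial.C 4 * Polynomial.X + Polynomial.C 7 * Polynomial.X ^ 2 +
    Polynomial.C 7 * Polynomial.X ^ 3 + Polynomial.C 4 * Polynomial.X ^ 4 +
    Polynomial.C 1 * Polynomial.X ^ 5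

theorem isNumerator_h31 : IsNumerator 3 1 h31 := by
  unfold IsNumerator
  have hexp : (1 - (PowerSeries.X : PowerSeries ℤ) ^ 2) ^ (1 * 3 + 1) =
      1 - PowerSeries.C (4 : ℤ) * PowerSeries.X ^ 2 + PowerSeries.C (6 : ℤ) * PowerSeries.X ^ 4 -
        PowerSeries.C (4 : ℤ) * PowerSeries.X ^ 6 + PowerSeries.X ^ 8 := by
    have h4 : (PowerSeries.C (4 : ℤ) : PowerSeries ℤ) = 4 := by
      rw [show (4 : ℤ) = ((4 : ℕ) : ℤ) by norm_num]; simp
    have h6 : (PowerSeries.C (6 : ℤ) : PowerSeries ℤ) = 6 := by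
      rw [show (6 : ℤ) = ((6 : ℕ) : ℤ) by norm_num]; simp
    rw [h4, h6]
    ring
  rw [hexp]
  set A := PowerSeries.mk (fun q : ℕ => (L 3 1 q : ℤ)) with hA
  have hmul : A * (1 - PowerSeries.C (4 : ℤ) * PowerSeries.X ^ 2 +
      PowerSeries.C (6 : ℤ) * PowerSeries.X ^ 4 -
        PowerSeries.C (4 : ℤ) * PowerSeries.X ^ 6 + PowerSeries.X ^ 8) =
      A - PowerSeries.C (4 : ℤ) * (A * PowerSeries.X ^ 2) +
        PowerSeries.C (6 : ℤ) * (A * PowerSeries.X ^ 4) -
        PowerSeries.C (4 : ℤ) * (A * PowerSeries.X ^ 6) + A * PowerSeries.X ^ 8 := by ring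
  rw [hmul]
  ext n
  have hL2 : ∀ k, 2 * (L 3 1 (2 * k) : ℤ) = 4 * k ^ 3 + 9 * k ^ 2 + 7 * k + 2 :=
    fun k => (L_formula k).1
  have hL3 : ∀ k, 2 * (L 3 1 (2 * k + 1) : ℤ) = 4 * k ^ 3 + 15 * k ^ 2 + 19 * k + 8 :=
    fun k => (L_formula k).2
  simp only [map_add, map_sub, PowerSeries.coeff_C_mul, PowerSeries.coeff_mul_X_pow', hA,
    PowerSeries.coeff_mk, Polynomial.coeff_coe, h31, Polynomial.coeff_add,
    Polynomial.coeff_C_mul, Polynomial.coeff_X_pow, Polynomial.coeff_X, Polynomial.coeff_C]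
  rcases Nat.lt_or_ge n 8 with hn | hn
  · have a0 := hL2 0
    have a1 := hL3 0
    have a2 := hL2 1
    have a3 := hL3 1
    have a4 := hL2 2
    have a5 := hL3 2
    have a6 := hL2 3
    have a7 := hL3 3
    norm_num at a0 a1 a2 a3 a4 a5 a6 a7
    interval_cases n <;> norm_num <;> omega
  · have hn2 : 2 ≤ n := by omega
    have hn4 : 4 ≤ n := by omega
    have hn6 : 6 ≤ n := by omega
    have g0 : ¬ n = 0 := by omega
    have g1 : ¬ (1 = n) := by omega
    have g2 : ¬ n = 2 := by omega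
    have g3 : ¬ n = 3 := by omega
    have g4 : ¬ n = 4 := by omega
    have g5 : ¬ n = 5 := by omega
    simp only [hn, hn2, hn4, hn6, g0, g1, g2, g3, g4, g5, if_true, if_false, mul_zero, add_zero]
    rcases Nat.even_or_odd' n with ⟨k, hk | hk⟩
    · obtain ⟨j, rfl⟩ : ∃ j, k = j + 4 := ⟨k - 4, by omega⟩
      subst hk
      have e1 : 2 * (j + 4) - 2 = 2 * (j + 3) := by omega
      have e2 : 2 * (j + 4) - 4 = 2 * (j + 2) := by omega
      have e3 : 2 * (j + 4) - 6 = 2 * (j + 1) := by omega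
      have e4 : 2 * (j + 4) - 8 = 2 * j := by omega
      rw [e1, e2, e3, e4]
      have b0 := hL2 j
      have b1 := hL2 (j + 1)
      have b2 := hL2 (j + 2)
      have b3 := hL2 (j + 3)
      have b4 := hL2 (j + 4)
      push_cast at b0 b1 b2 b3 b4
      have : (2 : ℤ) * ((L 3 1 (2 * (j + 4)) : ℤ) - 4 * (L 3 1 (2 * (j + 3)) : ℤ) +
        6 * (L 3 1 (2 * (j + 2)) : ℤ) - 4 * (L 3 1 (2 * (j + 1)) : ℤ) + (L 3 1 (2 * j) : ℤ)) = 0 := by
        linear_combination b4 - 4 * b3 + 6 * b2 - 4 * b1 + b0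
      linarith
    · obtain ⟨j, rfl⟩ : ∃ j, k = j + 4 := ⟨k - 4, by omega⟩
      subst hk
      have e1 : 2 * (j + 4) + 1 - 2 = 2 * (j + 3) + 1 := by omega
      have e2 : 2 * (j + 4) + 1 - 4 = 2 * (j + 2) + 1 := by omega
      have e3 : 2 * (j + 4) + 1 - 6 = 2 * (j + 1) + 1 := by omega
      have e4 : 2 * (j + 4) + 1 - 8 = 2 * j + 1 := by omega
      rw [e1, e2, e3, e4]
      have b0 := hL3 j
      have b1 := hL3 (j + 1)
      have b2 := hL3 (j + 2)
      have b3 := hL3 (j + 3)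
      have b4 := hL3 (j + 4)
      push_cast at b0 b1 b2 b3 b4
      have : (2 : ℤ) * ((L 3 1 (2 * (j + 4) + 1) : ℤ) - 4 * (L 3 1 (2 * (j + 3) + 1) : ℤ) +
        6 * (L 3 1 (2 * (j + 2) + 1) : ℤ) - 4 * (L 3 1 (2 * (j + 1) + 1) : ℤ) +
        (L 3 1 (2 * j + 1) : ℤ)) = 0 := by
        linear_combination b4 - 4 * b3 + 6 * b2 - 4 * b1 + b0
      linarith

theorem natDegree_h31 : h31.natDegree = 5 := by
  unfold h31
  compute_degree!

theorem not_gammaNonneg_h31 : ¬ GammaNonneg h31 := by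
  rintro ⟨γ, hγ, h⟩
  rw [natDegree_h31] at h
  have h0 := congrArg (fun p : Polynomial ℤ => p.eval 0) h
  have h1 := congrArg (fun p : Polynomial ℤ => (Polynomial.derivative p).eval 0) h
  simp [Finset.sum_range_succ, h31, Polynomial.derivative_pow] at h0 h1
  have k2 := hγ 1
  linarith

/-- **Main theorem.** -/
theorem result : ∃ h : Polynomial ℤ, IsNumerator 3 1 h ∧
    h = 1 + 4 * Polynomial.X + 7 * Polynomial.X ^ 2 + 7 * Polynomial.X ^ 3 +
      4 * Polynomial.X ^ 4 + Polynomial.X ^ 5 ∧ ¬ GammaNonneg h := by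
  refine ⟨h31, isNumerator_h31, ?_, not_gammaNonneg_h31⟩
  unfold h31
  simp only [map_one, map_ofNat, one_mul]

end Pool.Agent.Results.MP_308823_co.NotGammaNonneg
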